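import Mathlib
import Pool.Agent.Helper94.Gupta.Derived

set_option autoImplicit false

namespace Pool.Agent.Results.MP_429c3d_al.RightOrderable

/-- Let `n > 1` and let `G` satisfy the law `[x,y] = [x,ₙ y]`. (1) For every finitely generated
subgroup `H`, the derived subgroup `[H,H]` is finitely generated and perfect. (2) If `G` has a total
order invariant under right multiplication, or if no nontrivial finitely generated subgroup of `G`
is perfect, then `G` is abelian. -/
theorem result :
    ∀ n : ℕ, 1 < n → ∀ (G : Type) [Group G],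
      (∀ x y : G, x⁻¹ * y⁻¹ * x * y = (fun z : G => z⁻¹ * y⁻¹ * z * y)^[n] x) →
        (∀ H : Subgroup G, H.FG → (⁅H, H⁆).FG ∧ ⁅(⁅H, H⁆), (⁅H, H⁆)⁆ = ⁅H, H⁆) ∧
        ((∃ lo : LinearOrder G, ∀ a b d : G, lo.lt a b → lo.lt (a * d) (b * d)) ∨
          (∀ K : Subgroup G, K.FG → K ≠ ⊥ → ⁅K, K⁆ ≠ K) →
            ∀ a b : G, a * b = b * a) := by
  classical
  intro n hn G _ hL
  have hD := fun (H : Subgroup G) (hH : H.FG) =>
    Pool.Agent.Helper94.Gupta.Law.derived hn (show Pool.Agent.Helper94.Gupta.Law n G from hL) H hH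
  refine ⟨hD, ?_⟩
  intro h
  have hbot : ∀ K : Subgroup G, K.FG → ⁅K, K⁆ = K → K = ⊥ := by
    rcases h with ⟨lo, hlo⟩ | h
    · intro K hK hperf
      refine Pool.Agent.Helper94.Gupta.abelian_of_ro hn
        (show Pool.Agent.Helper94.Gupta.Law n G from hL) lo.lt ?_ ?_ ?_ hlo K hK hperf
      · intro a ha
        exact ((lo.lt_iff_le_not_ge a a).1 ha).2 (lo.le_refl a)
      · intro a b c h1 h2
        let _ := lo
        exact lt_trans h1 h2
      · intro a b
        let _ := lo
        exact lt_trichotomy a b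
    · intro K hK hperf
      by_contra hb
      exact h K hK hb hperf
  intro a b
  obtain ⟨h1, h2⟩ := hD (Subgroup.closure {a, b}) ⟨{a, b}, by simp⟩
  have h3 := hbot _ h1 h2
  have h4 := Subgroup.commutator_mem_commutator
    (show a ∈ Subgroup.closure ({a, b} : Set G) from Subgroup.subset_closure (by simp))
    (show b ∈ Subgroup.closure ({a, b} : Set G) from Subgroup.subset_closure (by simp))
  rw [h3, Subgroup.mem_bot, commutatorElement_eq_one_iff_mul_comm] at h4
  exact h4

end Pool.Agent.Results.MP_429c3d_al.RightOrderable
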